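import Pool.Agent.J4H93.HN.Stm

set_option autoImplicit false

/-! Project HN: (CNT) and (LIGHT). -/

namespace Pool.Agent.J4H5.HN

open Finset Pool.Agent.J4H93.HN

theorem R_nonneg (A : Finset ℕ) : 0 ≤ R A := Finset.sum_nonneg fun n _ => by positivity

theorem es_nonneg (P : Finset ℕ) (k : ℕ) : 0 ≤ es P k :=
  Finset.sum_nonneg fun T _ => Finset.prod_nonneg fun p _ => by positivity

theorem R_mono {A B : Finset ℕ} (h : A ⊆ B) : R A ≤ R B :=
  Finset.sum_le_sum_of_subset_of_nonneg h fun n _ _ => by positivity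

theorem es_le_exp (hE1 : S_E1) (P : Finset ℕ) (k : ℕ) : es P k ≤ Real.exp (R P) :=
  (hE1 P k).trans (Real.pow_div_factorial_le_exp (R P) (R_nonneg P) k)

/-- multiples in an interval -/
theorem count_mult (d N a : ℕ) (hd : 0 < d) : ((Icc a (a + N)).filter (fun x => d ∣ x)).card ≤ N / d + 1 := by
  rcases ((Icc a (a + N)).filter (fun x => d ∣ x)).eq_empty_or_nonempty with h0 | h0
  · rw [h0, card_empty]; exact Nat.zero_le _
  · have hm := min'_mem _ h0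
    set m := ((Icc a (a + N)).filter (fun x => d ∣ x)).min' h0 with hmdef
    have hma : a ≤ m := (mem_Icc.1 (mem_filter.1 hm).1).1
    have key : ((Icc a (a + N)).filter (fun x => d ∣ x)).card ≤ (range (N / d + 1)).card := by
      apply card_le_card_of_injOn (fun x => (x - m) / d)
      · intro x hx
        have hx1 := mem_coe.1 hx
        have hx2 := mem_Icc.1 (mem_filter.1 hx1).1
        rw [mem_coe, mem_range]
        show (x - m) / d < N / d + 1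
        have : (x - m) / d ≤ N / d := Nat.div_le_div_right (by omega)
        omega
      · intro x hx y hy hxy
        have hx1 := mem_coe.1 hx
        have hy1 := mem_coe.1 hy
        have hmx : m ≤ x := min'_le _ _ hx1
        have hmy : m ≤ y := min'_le _ _ hy1
        have h1 : d ∣ x - m := Nat.dvd_sub (mem_filter.1 hx1).2 (mem_filter.1 hm).2
        have h2 : d ∣ y - m := Nat.dvd_sub (mem_filter.1 hy1).2 (mem_filter.1 hm).2
        have h3 : (x - m) / d = (y - m) / d := hxy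
        have h4 : x - m = y - m := by
          rw [← Nat.mul_div_cancel' h1, ← Nat.mul_div_cancel' h2, h3]
        omega
    rwa [card_range] at key

theorem t_CNT (hE1 : S_E1) : S_CNT := by
  intro Y k P0 P1 τ hp h hh
  have hYn : 0 < Y := by have := hp.hY; omega
  have hY0 : (0 : ℝ) < Y := by exact_mod_cast hYn
  have step1 : ∀ x, es (Dv P1 x) 8 ≤
      ∑ T ∈ P1.powersetCard 8, if (∏ p ∈ T, p) ∣ x then ∏ p ∈ T, (1 : ℝ) / p else 0 := by
    intro x
    rw [← sum_filter]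
    apply sum_le_sum_of_subset_of_nonneg
    · intro T hT
      rw [mem_powersetCard] at hT
      rw [mem_filter, mem_powersetCard]
      refine ⟨⟨hT.1.trans (filter_subset _ _), hT.2⟩, ?_⟩
      apply Finset.prod_primes_dvd
      · intro p hpT
        exact ((hp.p1 p (filter_subset _ _ (hT.1 hpT))).1).prime
      · intro p hpT
        exact (mem_filter.1 (hT.1 hpT)).2
    · intro T _ _
      exact prod_nonneg fun p _ => by positivity
  have step2 : ∀ T ∈ P1.powersetCard 8, ∑ x ∈ II Y h, (if (∏ p ∈ T, p) ∣ x then ∏ p ∈ T, (1 : ℝ) / p else 0) ≤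
      3 * (Y : ℝ) ^ 8 * ∏ p ∈ T, (1 : ℝ) / p := by
    intro T hT
    rw [mem_powersetCard] at hT
    have hprod : ∏ p ∈ T, (1 : ℝ) / p = 1 / ((∏ p ∈ T, p : ℕ) : ℝ) := by
      rw [prod_div_distrib, prod_const_one, Nat.cast_prod]
    have hdlt : Y ^ 232 ≤ ∏ p ∈ T, p := by
      have : ∏ _p ∈ T, Y ^ 29 ≤ ∏ p ∈ T, p := prod_le_prod' fun p hpT => (hp.p1 p (hT.1 hpT)).2.1.le
      rw [prod_const, hT.2, ← pow_mul] at this
      exact this
    have hdle : ∏ p ∈ T, p ≤ Y ^ 240 := by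
      have : ∏ p ∈ T, p ≤ ∏ _p ∈ T, Y ^ 30 := prod_le_prod' fun p hpT => (hp.p1 p (hT.1 hpT)).2.2
      rw [prod_const, hT.2, ← pow_mul] at this
      exact this
    rw [← sum_filter, sum_const, nsmul_eq_mul, hprod]
    generalize (∏ p ∈ T, p) = d at hdlt hdle
    have hd0 : 0 < d := lt_of_lt_of_le (pow_pos hYn 232) hdlt
    have hd0' : (0 : ℝ) < d := by exact_mod_cast hd0
    have hII : II Y h = Icc (h - Y ^ 240) (h - Y ^ 240 + 2 * Y ^ 240) := by
      unfold II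
      congr 1
      omega
    have hc := count_mult d (2 * Y ^ 240) (h - Y ^ 240) hd0
    rw [← hII] at hc
    have hc2 : (((II Y h).filter (fun x => d ∣ x)).card : ℝ) ≤ 2 * (Y : ℝ) ^ 240 / d + 1 := by
      have h1 : (((II Y h).filter (fun x => d ∣ x)).card : ℝ) ≤ ((2 * Y ^ 240 / d + 1 : ℕ) : ℝ) := by exact_mod_cast hc
      refine h1.trans ?_
      rw [Nat.cast_add, Nat.cast_one]
      have h2 := @Nat.cast_div_le ℝ _ _ _ (2 * Y ^ 240) d
      have h3 : ((2 * Y ^ 240 : ℕ) : ℝ) = 2 * (Y : ℝ) ^ 240 := by rw [Nat.cast_mul, Nat.cast_pow]; norm_num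
      rw [h3] at h2
      linarith
    have hdr : (d : ℝ) ≤ (Y : ℝ) ^ 240 := by exact_mod_cast hdle
    have hdr2 : (Y : ℝ) ^ 232 ≤ d := by exact_mod_cast hdlt
    have e240 : (Y : ℝ) ^ 240 = (Y : ℝ) ^ 8 * (Y : ℝ) ^ 232 := by rw [← pow_add]
    have h5 : (Y : ℝ) ^ 240 / d ≤ (Y : ℝ) ^ 8 := by
      rw [div_le_iff₀ hd0', e240]
      exact mul_le_mul_of_nonneg_left hdr2 (by positivity)
    have h6 : (1 : ℝ) ≤ (Y : ℝ) ^ 240 / d := by rw [le_div_iff₀ hd0', one_mul]; exact hdr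
    apply mul_le_mul_of_nonneg_right _ (by positivity)
    refine hc2.trans ?_
    have h7 : 2 * (Y : ℝ) ^ 240 / d = 2 * ((Y : ℝ) ^ 240 / d) := by ring
    rw [h7]
    linarith
  calc ∑ x ∈ II Y h, es (Dv P1 x) 8
      ≤ ∑ x ∈ II Y h, ∑ T ∈ P1.powersetCard 8, (if (∏ p ∈ T, p) ∣ x then ∏ p ∈ T, (1 : ℝ) / p else 0) :=
        sum_le_sum fun x _ => step1 x
    _ = ∑ T ∈ P1.powersetCard 8, ∑ x ∈ II Y h, (if (∏ p ∈ T, p) ∣ x then ∏ p ∈ T, (1 : ℝ) / p else 0) := sum_comm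
    _ ≤ ∑ T ∈ P1.powersetCard 8, 3 * (Y : ℝ) ^ 8 * ∏ p ∈ T, (1 : ℝ) / p := sum_le_sum step2
    _ = 3 * (Y : ℝ) ^ 8 * es P1 8 := by rw [← mul_sum]; rfl
    _ ≤ 3 * (Y : ℝ) ^ 8 * 1 := by
        apply mul_le_mul_of_nonneg_left _ (by positivity)
        refine (hE1 P1 8).trans ?_
        rw [div_le_one (by positivity)]
        have h1 : R P1 ^ 8 ≤ 1 := pow_le_one₀ (R_nonneg _) (hp.sig.trans (by norm_num))
        have h2 : (1 : ℝ) ≤ (Nat.factorial 8 : ℝ) := by exact_mod_cast Nat.factorial_pos 8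
        linarith
    _ = 3 * (Y : ℝ) ^ 8 := mul_one _

theorem t_LIGHT (hE1 : S_E1) (hE3 : S_E3) (hDX : S_DX) (hCNT : S_CNT) : S_LIGHT := by
  intro Y k P0 P1 τ hp h hh
  have hYn : 0 < Y := by have := hp.hY; omega
  have hY0 : (0 : ℝ) < Y := by exact_mod_cast hYn
  have hY6 : (10 : ℝ) ^ 6 ≤ Y := by exact_mod_cast hp.hY
  have key : ∀ x ∈ (II Y h).filter (fun x => R (Dv P1 x) ≤ 1 / (Y : ℝ) ^ 14),
      R (Dv (SS P0 P1 k) x) ≤ (1 / (Y : ℝ) ^ 41 / 6) * es (Dv P1 x) 8 := by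
    intro x hx
    rw [mem_filter] at hx
    obtain ⟨hxI, hxR⟩ := hx
    have hx0 : 0 < x := by
      unfold II at hxI
      rw [mem_Icc] at hxI
      omega
    have h1 := hDX P0 P1 k x (fun p hp' => (hp.p0 p hp').1) (fun p hp' => (hp.p1 p hp').1) hp.dis hx0
    have h2 : es (Dv P0 x) k ≤ Y :=
      (es_le_exp hE1 _ _).trans ((Real.exp_le_exp.2 (R_mono (filter_subset _ _))).trans hp.eL)
    have h3 := hE3 (Dv P1 x)
    have h4 : es (Dv P1 x) 3 ≤ 1 / (Y : ℝ) ^ 42 / 6 := by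
      have a1 := hE1 (Dv P1 x) 3
      have e : (R (Dv P1 x)) ^ 3 ≤ (1 / (Y : ℝ) ^ 14) ^ 3 := pow_le_pow_left₀ (R_nonneg _) hxR 3
      have e2 : (1 / (Y : ℝ) ^ 14) ^ 3 = 1 / (Y : ℝ) ^ 42 := by rw [div_pow, one_pow, ← pow_mul]
      rw [e2] at e
      have e3 : (Nat.factorial 3 : ℝ) = 6 := by norm_num [Nat.factorial]
      rw [e3] at a1
      exact a1.trans (div_le_div_of_nonneg_right e (by norm_num))
    calc R (Dv (SS P0 P1 k) x) ≤ es (Dv P0 x) k * es (Dv P1 x) 11 := h1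
      _ ≤ Y * (es (Dv P1 x) 8 * (1 / (Y : ℝ) ^ 42 / 6)) :=
          mul_le_mul h2 (h3.trans (mul_le_mul_of_nonneg_left h4 (es_nonneg _ _))) (es_nonneg _ _) hY0.le
      _ = (1 / (Y : ℝ) ^ 41 / 6) * es (Dv P1 x) 8 := by
          have e42 : (Y : ℝ) ^ 42 = Y * (Y : ℝ) ^ 41 := by rw [← pow_succ']
          rw [e42]
          field_simp
  calc ∑ x ∈ (II Y h).filter (fun x => R (Dv P1 x) ≤ 1 / (Y : ℝ) ^ 14), R (Dv (SS P0 P1 k) x)
      ≤ ∑ x ∈ (II Y h).filter (fun x => R (Dv P1 x) ≤ 1 / (Y : ℝ) ^ 14), (1 / (Y : ℝ) ^ 41 / 6) * es (Dv P1 x) 8 :=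
        sum_le_sum key
    _ ≤ ∑ x ∈ II Y h, (1 / (Y : ℝ) ^ 41 / 6) * es (Dv P1 x) 8 :=
        sum_le_sum_of_subset_of_nonneg (filter_subset _ _) (fun x _ _ => mul_nonneg (by positivity) (es_nonneg _ _))
    _ = (1 / (Y : ℝ) ^ 41 / 6) * ∑ x ∈ II Y h, es (Dv P1 x) 8 := by rw [mul_sum]
    _ ≤ (1 / (Y : ℝ) ^ 41 / 6) * (3 * (Y : ℝ) ^ 8) :=
        mul_le_mul_of_nonneg_left (hCNT Y k P0 P1 τ hp h hh) (by positivity)
    _ ≤ τ / (8 * (Y : ℝ) ^ 30) := by
      have ht := hp.tau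
      rw [le_div_iff₀ (by positivity)]
      refine le_trans ?_ ht
      have e : (1 / (Y : ℝ) ^ 41 / 6) * (3 * (Y : ℝ) ^ 8) * (8 * (Y : ℝ) ^ 30) = 4 / (Y : ℝ) ^ 3 := by
        have e41 : (Y : ℝ) ^ 41 = (Y : ℝ) ^ 3 * ((Y : ℝ) ^ 8 * (Y : ℝ) ^ 30) := by rw [← pow_add, ← pow_add]
        rw [e41]
        have p1 : (Y : ℝ) ^ 8 ≠ 0 := by positivity
        have p2 : (Y : ℝ) ^ 30 ≠ 0 := by positivity
        have p3 : (Y : ℝ) ^ 3 ≠ 0 := by positivity
        field_simp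
        norm_num
      rw [e, div_le_div_iff₀ (by positivity) hY0]
      have : (Y : ℝ) ^ 3 = Y * (Y * Y) := by ring
      rw [this]
      nlinarith [mul_pos hY0 hY0, mul_le_mul hY6 hY6 (by norm_num) hY0.le]

end Pool.Agent.J4H5.HN
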